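import Mathlib

/-!
# MP_0a29ca_nt: every M-number is strongly matchable
-/

namespace Pool.Agent.Results.MP_0a29ca_nt.StronglyMatchable

/-- There is a coprime matching from `A` to `B`: a bijection `ψ` with `gcd(x, ψ x) = 1`. -/
def CoprimeMatching (A B : Finset ℕ) : Prop :=
  ∃ ψ : {x // x ∈ A} ≃ {x // x ∈ B}, ∀ x : {x // x ∈ A}, Nat.Coprime (x : ℕ) (ψ x : ℕ)

/-- The arithmetic progression `{a, a + d, …, a + (k-1) d}`. -/
def AP (a d k : ℕ) : Finset ℕ := (Finset.range k).image (fun j => a + j * d)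

/-- `n` is strongly matchable. -/
def IsStronglyMatchable (n : ℕ) : Prop :=
  ∀ a d : ℕ, 1 ≤ a → 1 ≤ d → Nat.Coprime a d →
    CoprimeMatching n.divisors (AP a d n.divisors.card)

/-- `n` is an M-number: `p ^ p ∤ n` for every prime `p`. -/
def IsMNumber (n : ℕ) : Prop := 0 < n ∧ ∀ p : ℕ, p.Prime → ¬ p ^ p ∣ n

section Matrix

variable {ι : Type} [Fintype ι] [DecidableEq ι] (v : ι → ℕ)

/-- exponent vectors -/
abbrev Exps : Type := (p : ι) → Fin (v p + 1)

/-- the transition matrix from the monomials to the functions `x ^ e - c ^ e`. -/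
def t {m : ℕ} (c : ℂ) (a b : Fin (m + 1)) : ℂ :=
  (if a = b then 1 else 0) - (if b = 0 ∧ a ≠ 0 then c ^ (a : ℕ) else 0)

/-- its inverse -/
def s {m : ℕ} (c : ℂ) (a b : Fin (m + 1)) : ℂ :=
  (if a = b then 1 else 0) + (if b = 0 ∧ a ≠ 0 then c ^ (a : ℕ) else 0)

theorem t_mul_s {m : ℕ} (c : ℂ) (a g : Fin (m + 1)) :
    ∑ b, t c a b * s c b g = if a = g then 1 else 0 := by
  unfold t s
  simp only [sub_mul, mul_add, Finset.sum_sub_distrib, Finset.sum_add_distrib]
  have h1 : ∑ b : Fin (m + 1), (if a = b then (1 : ℂ) else 0) * (if b = g then 1 else 0) =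
      if a = g then 1 else 0 := by
    simp
  have h2 : ∑ b : Fin (m + 1), (if a = b then (1 : ℂ) else 0) *
      (if g = 0 ∧ b ≠ 0 then c ^ (b : ℕ) else 0) = if g = 0 ∧ a ≠ 0 then c ^ (a : ℕ) else 0 := by
    rw [Finset.sum_eq_single a]
    · simp
    · intro b _ hb
      simp [hb.symm]
    · simp
  have h3 : ∑ b : Fin (m + 1), (if b = 0 ∧ a ≠ 0 then c ^ (a : ℕ) else 0) *
      (if b = g then (1 : ℂ) else 0) = if g = 0 ∧ a ≠ 0 then c ^ (a : ℕ) else 0 := by
    rw [Finset.sum_eq_single g]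
    · simp
    · intro b _ hb
      simp [hb]
    · simp
  have h4 : ∑ b : Fin (m + 1), (if b = 0 ∧ a ≠ 0 then c ^ (a : ℕ) else 0) *
      (if g = 0 ∧ b ≠ 0 then c ^ (b : ℕ) else 0) = 0 := by
    apply Finset.sum_eq_zero
    intro b _
    by_cases hb : b = 0
    · simp [hb]
    · simp [hb]
  rw [h1, h2, h3, h4]
  ring

theorem t_eval {m : ℕ} (c x : ℂ) (a : Fin (m + 1)) :
    ∑ b : Fin (m + 1), t c a b * x ^ (b : ℕ) =
      x ^ (a : ℕ) - if a ≠ 0 then c ^ (a : ℕ) else 0 := by
  unfold t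
  simp only [sub_mul, Finset.sum_sub_distrib]
  have h1 : ∑ b : Fin (m + 1), (if a = b then (1 : ℂ) else 0) * x ^ (b : ℕ) = x ^ (a : ℕ) := by
    simp
  have h2 : ∑ b : Fin (m + 1), (if b = 0 ∧ a ≠ 0 then c ^ (a : ℕ) else 0) * x ^ (b : ℕ) =
      if a ≠ 0 then c ^ (a : ℕ) else 0 := by
    rw [Finset.sum_eq_single 0]
    · simp
    · intro b _ hb
      simp [hb]
    · simp
  rw [h1, h2]

/-- the tensor product of the `t`s -/
def T (c : ι → ℂ) : Matrix (Exps v) (Exps v) ℂ := fun e f => ∏ p, t (c p) (e p) (f p)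

/-- the tensor product of the `s`s -/
def S (c : ι → ℂ) : Matrix (Exps v) (Exps v) ℂ := fun e f => ∏ p, s (c p) (e p) (f p)

theorem T_mul_S (c : ι → ℂ) : T v c * S v c = 1 := by
  ext e g
  rw [Matrix.mul_apply]
  unfold T S
  simp only [← Finset.prod_mul_distrib]
  have h := (Finset.prod_univ_sum (fun p : ι => (Finset.univ : Finset (Fin (v p + 1))))
    (fun p b => t (c p) (e p) b * s (c p) b (g p)))
  rw [Fintype.piFinset_univ] at h
  rw [← h]
  simp only [t_mul_s]
  rw [Matrix.one_apply]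
  by_cases heg : e = g
  · subst heg; simp
  · rw [if_neg heg]
    obtain ⟨p, hp⟩ := Function.ne_iff.1 heg
    exact Finset.prod_eq_zero (Finset.mem_univ p) (by simp [hp])

theorem det_T_ne_zero (c : ι → ℂ) : (T v c).det ≠ 0 := by
  intro h
  have := congrArg Matrix.det (T_mul_S v c)
  rw [Matrix.det_mul, h, zero_mul, Matrix.det_one] at this
  exact zero_ne_one this

/-- The key statement: a system of distinct indices at which the products do not vanish. -/
theorem exists_index (z c : ι → ℂ)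
    (hinj : Function.Injective (fun f : Exps v => ∏ p, z p ^ (f p : ℕ))) :
    ∃ π : Exps v ≃ Fin (Fintype.card (Exps v)), ∀ e : Exps v, ∀ p, e p ≠ 0 →
      z p ^ (π e : ℕ) ≠ c p := by
  classical
  let idx : Exps v ≃ Fin (Fintype.card (Exps v)) := Fintype.equivFin _
  let lam : Exps v → ℂ := fun f => ∏ p, z p ^ (f p : ℕ)
  let W : Matrix (Exps v) (Exps v) ℂ := fun f g => lam f ^ (idx g : ℕ)
  have hW : W.det ≠ 0 := by
    have h1 : W = (Matrix.vandermonde (lam ∘ idx.symm)).submatrix idx idx := by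
      ext f g
      simp [W, Matrix.vandermonde, Matrix.submatrix]
    rw [h1, Matrix.det_submatrix_equiv_self, Matrix.det_vandermonde_ne_zero_iff]
    exact hinj.comp idx.symm.injective
  have hB : (T v c * W).det ≠ 0 := by
    rw [Matrix.det_mul]
    exact mul_ne_zero (det_T_ne_zero v c) hW
  have hent : ∀ e g, (T v c * W) e g =
      ∏ p, ((z p ^ (idx g : ℕ)) ^ (e p : ℕ) - if e p ≠ 0 then c p ^ (e p : ℕ) else 0) := by
    intro e g
    rw [Matrix.mul_apply]
    simp only [← t_eval]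
    have h := (Finset.prod_univ_sum (fun p : ι => (Finset.univ : Finset (Fin (v p + 1))))
      (fun p b => t (c p) (e p) b * (z p ^ (idx g : ℕ)) ^ (b : ℕ)))
    rw [Fintype.piFinset_univ] at h
    rw [h]
    apply Finset.sum_congr rfl
    intro f _
    unfold T
    simp only [W, lam]
    rw [Finset.prod_mul_distrib, ← Finset.prod_pow]
    congr 1
    apply Finset.prod_congr rfl
    intro p _
    rw [← pow_mul, ← pow_mul, mul_comm]
  rw [Matrix.det_apply] at hB
  obtain ⟨σ, -, hσ⟩ := Finset.exists_ne_zero_of_sum_ne_zero hB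
  have hσ2 : ∏ i, (T v c * W) (σ i) i ≠ 0 := by
    intro h0
    rw [h0, smul_zero] at hσ
    exact hσ rfl
  refine ⟨σ.symm.trans idx, ?_⟩
  intro e p hep heq
  have h1 : (T v c * W) (σ (σ.symm e)) (σ.symm e) ≠ 0 :=
    Finset.prod_ne_zero_iff.1 hσ2 (σ.symm e) (Finset.mem_univ _)
  rw [Equiv.apply_symm_apply, hent] at h1
  have h2 := Finset.prod_ne_zero_iff.1 h1 p (Finset.mem_univ p)
  apply h2
  rw [if_pos hep]
  have : z p ^ ((idx (σ.symm e) : Fin _) : ℕ) = c p := heq
  rw [this, sub_self]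

end Matrix

/-- The product of the prime-order roots of unity determines the exponents. -/
theorem roots_injective (P : Finset ℕ) (hP : ∀ p ∈ P, p.Prime) (v : P → ℕ)
    (hv : ∀ p : P, v p < (p : ℕ)) :
    Function.Injective (fun f : Exps v =>
      ∏ p : P, Complex.exp (2 * Real.pi * Complex.I / ((p : ℕ) : ℂ)) ^ (f p : ℕ)) := by
  intro f g hfg
  simp only at hfg
  funext p
  have hp : (p : ℕ).Prime := hP p p.2
  -- raise to the power `M`, the product of the other primes
  set M : ℕ := ∏ q ∈ P.erase p, q with hM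
  have hroot : ∀ q : P, IsPrimitiveRoot (Complex.exp (2 * Real.pi * Complex.I / ((q : ℕ) : ℂ)))
      (q : ℕ) := fun q => Complex.isPrimitiveRoot_exp _ (hP q q.2).ne_zero
  have key : ∀ h : Exps v,
      (∏ q : P, Complex.exp (2 * Real.pi * Complex.I / ((q : ℕ) : ℂ)) ^ (h q : ℕ)) ^ M =
      (Complex.exp (2 * Real.pi * Complex.I / ((p : ℕ) : ℂ)) ^ M) ^ (h p : ℕ) := by
    intro h
    rw [← Finset.prod_pow, Finset.prod_eq_single p]
    · exact pow_right_comm _ _ _
    · intro q _ hq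
      rw [← pow_mul]
      have hdvd : (q : ℕ) ∣ M := by
        apply Finset.dvd_prod_of_mem
        rw [Finset.mem_erase]
        exact ⟨fun h => hq (Subtype.ext h), q.2⟩
      obtain ⟨k, hk⟩ := hdvd
      rw [hk, show (h q : ℕ) * ((q : ℕ) * k) = (q : ℕ) * ((h q : ℕ) * k) by ring, pow_mul,
        (hroot q).pow_eq_one, one_pow]
    · intro hne
      exact absurd (Finset.mem_univ p) hne
  have hcop : Nat.Coprime M (p : ℕ) := by
    rw [hM]
    apply Nat.Coprime.prod_left
    intro q hq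
    rw [Finset.mem_erase] at hq
    exact (Nat.coprime_primes (hP q hq.2) hp).2 hq.1
  have h1 := key f
  rw [hfg, key g] at h1
  have hprim := (hroot p).pow_of_coprime M hcop
  have h2 := hprim.pow_inj (lt_of_lt_of_le (f p).2 (hv p))
    (lt_of_lt_of_le (g p).2 (hv p)) h1.symm
  exact Fin.ext h2

theorem card_AP (a d k : ℕ) (hd : 1 ≤ d) : (AP a d k).card = k := by
  unfold AP
  rw [Finset.card_image_of_injective, Finset.card_range]
  intro i j hij
  simp only at hij
  have : i * d = j * d := by omega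
  exact Nat.eq_of_mul_eq_mul_right (by omega) this

theorem pow_eq_of_modEq {w : ℂ} {p i j : ℕ} (h : w ^ p = 1) (hij : i ≡ j [MOD p]) :
    w ^ i = w ^ j := by
  rw [pow_eq_pow_mod i h, pow_eq_pow_mod j h, hij]

/-- For a prime `p ∤ d`, an index `r` with `p ∣ a + r * d`. -/
theorem exists_root (p a d : ℕ) (hp : p.Prime) (hd : ¬ p ∣ d) : ∃ r : ℕ, p ∣ a + r * d := by
  have := Fact.mk hp
  have hd' : (d : ZMod p) ≠ 0 := by
    rwa [Ne, ZMod.natCast_eq_zero_iff]
  refine ⟨((-(a : ZMod p)) * (d : ZMod p)⁻¹).val, ?_⟩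
  rw [← ZMod.natCast_eq_zero_iff]
  push_cast
  rw [ZMod.natCast_val, ZMod.cast_id', id, mul_assoc, inv_mul_cancel₀ hd', mul_one]
  ring

/-- **The answer**: every M-number is strongly matchable. -/
theorem result : ∀ n : ℕ, IsMNumber n → IsStronglyMatchable n := by
  classical
  intro n ⟨hn, hM⟩ a d ha hd hcop
  set P : Finset ℕ := n.primeFactors with hPdef
  have hP : ∀ p ∈ P, p.Prime := fun p hp => Nat.prime_of_mem_primeFactors hp
  let v : P → ℕ := fun p => n.factorization p
  have hv : ∀ p : P, v p < (p : ℕ) := by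
    intro p
    by_contra hlt
    push Not at hlt
    apply hM p (hP p p.2)
    exact (pow_dvd_pow (p : ℕ) hlt).trans (Nat.ordProj_dvd n p)
  let z : P → ℂ := fun p => Complex.exp (2 * Real.pi * Complex.I / ((p : ℕ) : ℂ))
  -- the forbidden residues
  have hr : ∀ p : P, ∃ r : ℕ, ¬ (p : ℕ) ∣ d → (p : ℕ) ∣ a + r * d := by
    intro p
    by_cases hpd : (p : ℕ) ∣ d
    · exact ⟨0, fun h => absurd hpd h⟩
    · obtain ⟨r, hr⟩ := exists_root p a d (hP p p.2) hpd
      exact ⟨r, fun _ => hr⟩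
  choose r hr using hr
  obtain ⟨π, hπ⟩ := exists_index v z (fun p => z p ^ r p) (roots_injective P hP v hv)
  have hcard : Fintype.card (Exps v) = n.divisors.card := by
    rw [Nat.card_divisors hn.ne', Fintype.card_pi]
    simp only [Fintype.card_fin]
    exact Finset.prod_coe_sort P (fun p => n.factorization p + 1)
  -- exponent vector of a divisor
  have hle : ∀ (x : {x // x ∈ n.divisors}) (p : P), (x : ℕ).factorization p < v p + 1 := by
    intro x p
    have h1 : (x : ℕ) ∣ n := Nat.dvd_of_mem_divisors x.2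
    exact Nat.lt_succ_of_le ((Nat.factorization_le_iff_dvd
      (Nat.pos_of_mem_divisors x.2).ne' hn.ne').2 h1 p)
  let ex : {x // x ∈ n.divisors} → Exps v := fun x p => ⟨(x : ℕ).factorization p, hle x p⟩
  have hexinj : Function.Injective ex := by
    intro x y hxy
    apply Subtype.ext
    apply Nat.eq_of_factorization_eq (Nat.pos_of_mem_divisors x.2).ne'
      (Nat.pos_of_mem_divisors y.2).ne'
    intro q
    by_cases hq : q ∈ P
    · have := congrFun hxy ⟨q, hq⟩
      exact congrArg Fin.val this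
    · have h0 : n.factorization q = 0 := by
        by_contra hne
        apply hq
        rw [hPdef, ← Nat.support_factorization]
        exact Finsupp.mem_support_iff.2 hne
      have hx := (Nat.factorization_le_iff_dvd (Nat.pos_of_mem_divisors x.2).ne' hn.ne').2
        (Nat.dvd_of_mem_divisors x.2) q
      have hy := (Nat.factorization_le_iff_dvd (Nat.pos_of_mem_divisors y.2).ne' hn.ne').2
        (Nat.dvd_of_mem_divisors y.2) q
      omega
  have hmem : ∀ x : {x // x ∈ n.divisors},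
      a + (π (ex x) : ℕ) * d ∈ AP a d n.divisors.card := by
    intro x
    unfold AP
    rw [Finset.mem_image]
    refine ⟨π (ex x), ?_, rfl⟩
    rw [Finset.mem_range, ← hcard]
    exact (π (ex x)).2
  let Ψ : {x // x ∈ n.divisors} → {y // y ∈ AP a d n.divisors.card} :=
    fun x => ⟨a + (π (ex x) : ℕ) * d, hmem x⟩
  have hΨinj : Function.Injective Ψ := by
    intro x y hxy
    have h1 : a + (π (ex x) : ℕ) * d = a + (π (ex y) : ℕ) * d := congrArg Subtype.val hxy
    have h2 : (π (ex x) : ℕ) * d = (π (ex y) : ℕ) * d := by omega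
    have h3 : (π (ex x) : ℕ) = (π (ex y) : ℕ) := Nat.eq_of_mul_eq_mul_right (by omega) h2
    exact hexinj (π.injective (Fin.ext h3))
  have hΨbij : Function.Bijective Ψ := by
    rw [Fintype.bijective_iff_injective_and_card]
    refine ⟨hΨinj, ?_⟩
    rw [Fintype.card_coe, Fintype.card_coe, card_AP a d _ hd]
  refine ⟨Equiv.ofBijective Ψ hΨbij, ?_⟩
  intro x
  rw [Equiv.ofBijective_apply]
  change Nat.Coprime (x : ℕ) (a + (π (ex x) : ℕ) * d)
  apply Nat.coprime_of_dvd
  intro p hp hpx hpy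
  have hpn : p ∣ n := hpx.trans (Nat.dvd_of_mem_divisors x.2)
  have hpP : p ∈ P := Nat.mem_primeFactors.2 ⟨hp, hpn, hn.ne'⟩
  have hepos : ex x ⟨p, hpP⟩ ≠ 0 := by
    intro h0
    have h1 : (x : ℕ).factorization p = 0 := congrArg Fin.val h0
    have h2 := hp.factorization_pos_of_dvd (Nat.pos_of_mem_divisors x.2).ne' hpx
    omega
  have hne := hπ (ex x) ⟨p, hpP⟩ hepos
  by_cases hpd : p ∣ d
  · have hpa : p ∣ a := (Nat.dvd_add_left (hpd.mul_left _)).1 hpy
    exact hp.one_lt.ne' (Nat.dvd_one.1 (hcop ▸ Nat.dvd_gcd hpa hpd))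
  · apply hne
    have h1 := hr ⟨p, hpP⟩ hpd
    have hroot : IsPrimitiveRoot (z ⟨p, hpP⟩) p := Complex.isPrimitiveRoot_exp _ hp.ne_zero
    have hmod : (π (ex x) : ℕ) ≡ r ⟨p, hpP⟩ [MOD p] := by
      have h2 : a + (π (ex x) : ℕ) * d ≡ a + r ⟨p, hpP⟩ * d [MOD p] :=
        ((Nat.modEq_zero_iff_dvd).2 hpy).trans ((Nat.modEq_zero_iff_dvd).2 h1).symm
      have h3 := Nat.ModEq.add_left_cancel' a h2
      exact Nat.ModEq.cancel_right_of_coprime ((Nat.Prime.coprime_iff_not_dvd hp).2 hpd) h3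
    exact pow_eq_of_modEq hroot.pow_eq_one hmod

end Pool.Agent.Results.MP_0a29ca_nt.StronglyMatchable
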